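import Mathlib
import Pool.Agent.J4H86.LF.Abstract

/-!
Weak non-compactness measures in Lipschitz-free spaces over uniformly separated metric spaces.

`FreeSpace M o` is the Lipschitz-free space of `M` with base point `o` (closed linear span of the
evaluations in the dual of `Lip0 M o`), `deBlasi` is De Blasi's measure, `wk` the second measure of
the problem, `osc x` the oscillation of a sequence and `clusterSet x` the set of its weak-star
cluster points in the bidual; see the files `LF/Space` and `LF/Dual`.
-/

set_option autoImplicit false

open Pool.Agent.J4H86.LF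

namespace Pool.Agent.Results.MP_6e86bf_an.UniversalConstants

universe u

theorem result (M : Type u) [MetricSpace M] (o : M)
    (hM : ∃ s : ℝ, 0 < s ∧ ∀ x y : M, x ≠ y → s ≤ dist x y) :
    (∀ A : Set (FreeSpace M o), Bornology.IsBounded A → deBlasi A ≤ 52000 * wk A) ∧
    (∀ x : ℕ → FreeSpace M o, Bornology.IsBounded (Set.range x) →
      osc x ≤ 4000 * Metric.ediam (clusterSet x)) := by
  obtain ⟨s, hs, sep⟩ := hM
  have hP := free_propP M o s hs sep
  constructor
  · intro A hA
    have h := deBlasi_le (1 / 4000) (by norm_num) hP A hA
    have e : ENNReal.ofReal (13 / (1 / 4000)) = 52000 := by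
      norm_num
    rwa [e] at h
  · intro x hx
    have h := osc_le (1 / 4000) (by norm_num) hP x hx
    have e : ENNReal.ofReal (1 / (1 / 4000)) = 4000 := by
      norm_num
    rwa [e] at h

end Pool.Agent.Results.MP_6e86bf_an.UniversalConstants
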